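import Pool.Agent.helper84.ZD.SpecA

set_option autoImplicit false

open Complex MeasureTheory

namespace Pool.Agent.ZD

theorem GEO_log {A B : ℝ} (hA : 0 < A) (hB : 0 < B) (h : A ≤ B) :
    A * (Real.log B - Real.log A) ≤ B - A := by
  have h1 := Real.log_le_sub_one_of_pos (div_pos hB hA)
  rw [Real.log_div hB.ne' hA.ne'] at h1
  have h2 := mul_le_mul_of_nonneg_left h1 hA.le
  have h3 : A * (B / A - 1) = B - A := by field_simp
  linarith

theorem GEO : GEO_stmt := by
  intro m m' a h hm hm' ha hh
  have hm0 : (1 : ℝ) ≤ m := by exact_mod_cast hm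
  have hm0' : (1 : ℝ) ≤ m' := by exact_mod_cast hm'
  have ha' := abs_le.1 ha
  have he1 : Real.exp (-5) ≤ Real.exp a := Real.exp_le_exp.2 ha'.1
  have he2 : Real.exp a ≤ Real.exp 5 := Real.exp_le_exp.2 ha'.2
  have he3 : Real.exp (-5) ≤ 1 := Real.exp_le_one_iff.2 (by norm_num)
  have he4 : 0 < Real.exp (-5) := Real.exp_pos _
  have he5 : Real.exp 5 < 150 := by
    have h1 := Real.exp_one_lt_d9
    have h2 : Real.exp 5 = Real.exp 1 ^ 5 := by
      rw [← Real.exp_nat_mul]; norm_num
    rw [h2]
    calc Real.exp 1 ^ 5 < 2.7182818286 ^ 5 := pow_lt_pow_left₀ h1 (Real.exp_pos _).le (by norm_num)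
      _ < 150 := by norm_num
  have he6 : 1 < 150 * Real.exp (-5) := by
    have h1 : Real.exp 5 * Real.exp (-5) = 1 := by rw [← Real.exp_add]; norm_num
    nlinarith
  have hA : 0 < (m : ℝ) * Real.exp a := mul_pos (by linarith) (Real.exp_pos _)
  have hB : (0 : ℝ) < m' := by linarith
  refine ⟨fun h1 h2 => ?_, fun h1 => ?_, ?_⟩
  · have hlog : Real.log ((m : ℝ) * Real.exp a) = Real.log m + a := by
      rw [Real.log_mul (by linarith) (Real.exp_pos _).ne', Real.log_exp]
    have hz : a - (Real.log m' - Real.log m) = Real.log ((m : ℝ) * Real.exp a) - Real.log m' := by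
      rw [hlog]; ring
    rw [hz]
    have hmin1 : Real.exp (-5) * h ≤ (m : ℝ) * Real.exp a := by
      calc Real.exp (-5) * h ≤ Real.exp a * m := mul_le_mul he1 h1 hh (Real.exp_pos _).le
        _ = _ := mul_comm _ _
    have hmin2 : Real.exp (-5) * h ≤ m' := by nlinarith
    rcases le_total ((m : ℝ) * Real.exp a) m' with h3 | h3
    · have h4 := GEO_log hA hB h3
      have h5 : Real.log ((m : ℝ) * Real.exp a) ≤ Real.log m' := Real.log_le_log hA h3
      rw [abs_of_nonpos (by linarith), abs_of_nonpos (by linarith)]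
      have h6 := mul_le_mul_of_nonneg_right hmin1 (sub_nonneg.2 h5)
      linarith
    · have h4 := GEO_log hB hA h3
      have h5 : Real.log m' ≤ Real.log ((m : ℝ) * Real.exp a) := Real.log_le_log hB h3
      rw [abs_of_nonneg (by linarith), abs_of_nonneg (by linarith)]
      have h6 := mul_le_mul_of_nonneg_right hmin2 (sub_nonneg.2 h5)
      linarith
  · rcases h1 with h1 | h1
    · have h2 : (512 : ℝ) * m ≤ m' := by exact_mod_cast h1
      have h3 : (m : ℝ) * Real.exp a ≤ m * 150 :=
        mul_le_mul_of_nonneg_left (by linarith) (by linarith)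
      rw [abs_sub_comm]
      refine le_trans ?_ (le_abs_self _)
      nlinarith
    · have h2 : (512 : ℝ) * m' ≤ m := by exact_mod_cast h1
      have h3 : (m : ℝ) * Real.exp (-5) ≤ m * Real.exp a :=
        mul_le_mul_of_nonneg_left he1 (by linarith)
      refine le_trans ?_ (le_abs_self _)
      have h4 : (m' : ℝ) ≤ m / 512 := by linarith
      have h5 : (m : ℝ) ≤ 150 * (m * Real.exp (-5)) := by nlinarith
      have h6 : Real.exp (-5) * m' ≤ Real.exp (-5) * (m / 512) :=
        mul_le_mul_of_nonneg_left h4 he4.le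
      nlinarith
  · refine le_trans ?_ (le_abs_self _)
    have h3 : (m : ℝ) * Real.exp (-5) ≤ m * Real.exp a :=
      mul_le_mul_of_nonneg_left he1 (by linarith)
    nlinarith

end Pool.Agent.ZD
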